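import Pool.Agent.Y671.GL.Spec6
import Pool.Agent.Y671.GL.Ne
import Pool.Agent.Y671.LD.Pt
import Pool.Agent.Y671.LD.CirAux
import Pool.Agent.W670.SD.Cx
import Pool.Agent.W347.SD.SB2

/-!
# Project GD2, task TOTD: the derivatives of a completed L-function have many zeros
-/

set_option autoImplicit false

namespace Pool.Agent.Y423.GL

open Complex Filter Topology MeasureTheory Set Metric
open scoped ComplexConjugate
open Pool.Agent.Y671.GL
open Pool.Agent.Y671.LD
open Pool.Agent.H24R2.DZ (SB2)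

/-- Upper bound in a strip, the constant in front of `log t` does not depend on the width. -/
theorem upX {κ : ℝ} {H X Z : ℂ → ℂ} (h : CF κ H X Z) :
    ∃ C1 : ℝ, 0 ≤ C1 ∧ ∀ R : ℝ, 1 ≤ R → ∃ T0 : ℝ, 1 ≤ T0 ∧ ∀ (t : ℝ) (w : ℂ), T0 ≤ t →
      |w.re| ≤ R → |w.im - t| ≤ R →
      ‖X w‖ ≤ ‖H (I * t)‖ * Real.exp (κ * Real.log t * (|w.re| + C1)) := by
  obtain ⟨K2, T2, hK2, hT2, hg⟩ := h.gro 2 (by norm_num)
  obtain ⟨c, Kr, hc, hKr, hr⟩ := h.rgt (1 / 2) (by norm_num)
  have hκ := h.κ_pos
  refine ⟨(2 * K2 + 2) / κ, by positivity, ?_⟩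
  intro R hR
  obtain ⟨Kg, Tg, hKg, hTg, hgam⟩ := h.gam (2 * R) (by linarith)
  refine ⟨max (max Tg (T2 + R)) (max (Real.exp (max Kg Kr)) (2 + R)), ?_, ?_⟩
  · exact le_trans (by linarith) ((le_max_right _ _).trans (le_max_right _ _))
  intro t w ht hre him
  have ht1 : Tg ≤ t := ((le_max_left _ _).trans (le_max_left _ _)).trans ht
  have ht2 : T2 + R ≤ t := ((le_max_right _ _).trans (le_max_left _ _)).trans ht
  have ht3 : Real.exp (max Kg Kr) ≤ t := ((le_max_left _ _).trans (le_max_right _ _)).trans ht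
  have ht4 : 2 + R ≤ t := ((le_max_right _ _).trans (le_max_right _ _)).trans ht
  have htpos : 0 < t := by linarith
  have hlg : max Kg Kr ≤ Real.log t := by
    rw [Real.le_log_iff_exp_le htpos]
    exact ht3
  have hlg1 : Kg ≤ Real.log t := (le_max_left _ _).trans hlg
  have hlg2 : Kr ≤ Real.log t := (le_max_right _ _).trans hlg
  have hlt : 0 ≤ Real.log t := hKg.le.trans hlg1
  have key : ∀ w : ℂ, 0 ≤ w.re → w.re ≤ R → |w.im - t| ≤ R →
      ‖X w‖ ≤ ‖H (I * t)‖ * Real.exp (κ * Real.log t * (w.re + (2 * K2 + 2) / κ)) := by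
    intro w hw0 hwR hwi
    have hi := abs_le.1 hwi
    have hwim : 0 < w.im := by linarith
    rw [h.eq w hwim, norm_mul]
    have e1 : (w - I * t).re = w.re := by simp
    have e2 : (w - I * t).im = w.im - t := by simp
    have hu : ‖w - I * t‖ ≤ 2 * R := by
      have := Complex.norm_le_abs_re_add_abs_im (w - I * t)
      rw [e1, e2, abs_of_nonneg hw0] at this
      linarith
    obtain ⟨-, -, -, -, hH⟩ := hgam t (w - I * t) ht1 hu
    have e0 : I * (t : ℂ) + (w - I * t) = w := by ring
    rw [e0, e1] at hH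
    have hZ : ‖Z (1 / 2 + w)‖ ≤ Real.exp ((2 * K2 + 1) * Real.log t) := by
      rcases le_or_gt w.re 1 with h1 | h1
      · have hz := hg w.im ((w.re : ℝ) : ℂ) (by linarith)
          (by rw [Complex.norm_real, Real.norm_of_nonneg hw0]; linarith)
        have e : (1 / 2 : ℂ) + (I * (w.im : ℂ) + (w.re : ℂ)) = 1 / 2 + w := by
          congr 1
          apply Complex.ext <;> simp
        rw [e] at hz
        refine hz.trans ?_
        rw [Real.rpow_def_of_pos hwim]
        apply Real.exp_le_exp.2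
        have hl : Real.log w.im ≤ 2 * Real.log t := by
          have h5 : w.im ≤ t ^ 2 := by nlinarith
          calc Real.log w.im ≤ Real.log (t ^ 2) := Real.log_le_log hwim h5
            _ = 2 * Real.log t := by rw [Real.log_pow]; norm_num
        have h6 : Real.log w.im * K2 ≤ 2 * Real.log t * K2 := mul_le_mul_of_nonneg_right hl hK2.le
        linarith
      · have hz := (hr (1 / 2 + w) (by
          rw [Complex.add_re]
          have : (1 / 2 : ℂ).re = 1 / 2 := by norm_num
          rw [this]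
          linarith)).2.1
        refine hz.trans ?_
        have h7 := Real.add_one_le_exp ((2 * K2 + 1) * Real.log t)
        have h8 : 0 ≤ 2 * K2 * Real.log t := by positivity
        linarith
    calc ‖H w‖ * ‖Z (1 / 2 + w)‖ ≤ (Real.exp (κ * Real.log t * w.re + Kg) * ‖H (I * t)‖) *
          Real.exp ((2 * K2 + 1) * Real.log t) := by gcongr
      _ = ‖H (I * t)‖ * Real.exp (κ * Real.log t * w.re + Kg + (2 * K2 + 1) * Real.log t) := by
          rw [Real.exp_add (κ * Real.log t * w.re + Kg)]; ring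
      _ ≤ _ := by
        gcongr
        have h9 : κ * Real.log t * (w.re + (2 * K2 + 2) / κ) =
            κ * Real.log t * w.re + (2 * K2 + 2) * Real.log t := by field_simp
        rw [h9]
        linarith
  rcases le_or_gt 0 w.re with h0 | h0
  · have h1 := key w h0 (by rwa [abs_of_nonneg h0] at hre) him
    rwa [abs_of_nonneg h0]
  · have e := h.symm w
    have er : (-(conj w)).re = -w.re := by simp
    have ei : (-(conj w)).im = w.im := by simp
    have h1 := key (-(conj w)) (by rw [er]; linarith)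
      (by rw [er]; rw [abs_of_neg h0] at hre; exact hre) (by rw [ei]; exact him)
    rw [e, Complex.norm_conj, er] at h1
    rwa [abs_of_neg h0]

/-- Lower bound and logarithmic derivative on the right. -/
theorem loX {κ : ℝ} {H X Z : ℂ → ℂ} (h : CF κ H X Z) (R : ℝ) (hR : 1 ≤ R) (η : ℝ) (hη : 0 < η) :
    ∃ T0 : ℝ, 2 ≤ T0 ∧ ∀ (t : ℝ) (u : ℂ), T0 ≤ t → ‖u‖ ≤ R → 1 ≤ u.re →
      0 < ‖H (I * t)‖ ∧ X (I * t + u) ≠ 0 ∧
      ‖logDeriv X (I * t + u) - ((κ * Real.log t : ℝ) : ℂ)‖ ≤ η * (κ * Real.log t) ∧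
      ‖H (I * t)‖ * Real.exp (κ * Real.log t * u.re - Real.log t) ≤ ‖X (I * t + u)‖ := by
  obtain ⟨c, Kr, hc, hKr, hr⟩ := h.rgt (1 / 2) (by norm_num)
  have hκ := h.κ_pos
  obtain ⟨Kg, Tg, hKg, hTg, hgam⟩ := h.gam R hR
  obtain ⟨M, hM⟩ : ∃ M : ℝ, M = max ((Kg + Kr) / (η * κ)) (Kg - Real.log c) := ⟨_, rfl⟩
  refine ⟨max (max Tg (Real.exp M)) (R + 1), (hTg.trans (le_max_left _ _)).trans (le_max_left _ _), ?_⟩
  intro t u ht hu hre
  have ht1 : Tg ≤ t := ((le_max_left _ _).trans (le_max_left _ _)).trans ht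
  have ht2 : Real.exp M ≤ t := ((le_max_right _ _).trans (le_max_left _ _)).trans ht
  have ht3 : R + 1 ≤ t := (le_max_right _ _).trans ht
  have htpos : 0 < t := by linarith
  have hlg : M ≤ Real.log t := by
    rw [Real.le_log_iff_exp_le htpos]
    exact ht2
  have hl1 : Kg + Kr ≤ η * (κ * Real.log t) := by
    have h1 : (Kg + Kr) / (η * κ) ≤ Real.log t := by
      refine le_trans ?_ hlg
      rw [hM]
      exact le_max_left _ _
    rw [div_le_iff₀ (by positivity)] at h1
    linarith
  have hl2 : Kg - Real.log c ≤ Real.log t := by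
    refine le_trans ?_ hlg
    rw [hM]
    exact le_max_right _ _
  have hg0 := hgam t 0 ht1 (by simp; linarith)
  rw [add_zero] at hg0
  have hHt : 0 < ‖H (I * t)‖ := norm_pos_iff.2 hg0.2.1
  obtain ⟨g1, g2, g3, g4, -⟩ := hgam t u ht1 hu
  obtain ⟨p, hp⟩ : ∃ p : ℂ, p = I * t + u := ⟨_, rfl⟩
  rw [← hp] at g1 g2 g3 g4 ⊢
  have him : 0 < p.im := by
    have h1 := (abs_le.1 ((Complex.abs_im_le_norm u).trans hu)).1
    rw [hp]
    simp
    linarith
  have hpre : p.re = u.re := by rw [hp]; simp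
  have hs : 1 + 1 / 2 ≤ (1 / 2 + p).re := by
    rw [Complex.add_re, hpre]
    have : (1 / 2 : ℂ).re = 1 / 2 := by norm_num
    rw [this]
    linarith
  obtain ⟨r1, r2, r3⟩ := hr (1 / 2 + p) hs
  have hZ0 : Z (1 / 2 + p) ≠ 0 := by
    intro h0
    rw [h0, norm_zero] at r1
    linarith
  have hX0 : X p ≠ 0 := by
    rw [h.eq p him]
    exact mul_ne_zero g2 hZ0
  have hev : X =ᶠ[𝓝 p] fun w => H w * Z (1 / 2 + w) := by
    have : {w : ℂ | 0 < w.im} ∈ 𝓝 p := (isOpen_lt continuous_const Complex.continuous_im).mem_nhds him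
    filter_upwards [this] with w hw
    exact h.eq w hw
  have hdZ : DifferentiableAt ℂ (fun w => Z (1 / 2 + w)) p := by
    have := h.diffZ
    fun_prop
  have hld : logDeriv X p = logDeriv H p + logDeriv Z (1 / 2 + p) := by
    have h1 : logDeriv X p = logDeriv (fun w => H w * Z (1 / 2 + w)) p := by
      rw [logDeriv_apply, logDeriv_apply, hev.deriv_eq, h.eq p him]
    rw [h1, logDeriv_mul p g2 hZ0 g1 hdZ]
    congr 1
    rw [logDeriv_apply, logDeriv_apply, deriv_comp_const_add]
  refine ⟨hHt, hX0, ?_, ?_⟩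
  · rw [hld]
    have h2 : logDeriv H p + logDeriv Z (1 / 2 + p) - ((κ * Real.log t : ℝ) : ℂ) =
        (logDeriv H p - ((κ * Real.log t : ℝ) : ℂ)) + logDeriv Z (1 / 2 + p) := by ring
    rw [h2]
    refine (norm_add_le _ _).trans ?_
    linarith
  · rw [h.eq p him, norm_mul]
    have hce : Real.exp (Kg - Real.log t) ≤ c := by
      calc Real.exp (Kg - Real.log t) ≤ Real.exp (Real.log c) := Real.exp_le_exp.2 (by linarith)
        _ = c := Real.exp_log hc
    have hsplit : Real.exp (κ * Real.log t * u.re - Real.log t) =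
        Real.exp (κ * Real.log t * u.re - Kg) * Real.exp (Kg - Real.log t) := by
      rw [← Real.exp_add]
      congr 1
      ring
    calc ‖H (I * t)‖ * Real.exp (κ * Real.log t * u.re - Real.log t)
        = (Real.exp (κ * Real.log t * u.re - Kg) * ‖H (I * t)‖) * Real.exp (Kg - Real.log t) := by
          rw [hsplit]
          ring
      _ ≤ ‖H p‖ * ‖Z (1 / 2 + p)‖ := by
          have := r1
          gcongr
          exact hce.trans r1

/-- Lower bound for the derivatives. -/
theorem loD {κ : ℝ} {H X Z : ℂ → ℂ} (h : CF κ H X Z) (K : ℝ) (hK : 1 ≤ K)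
    (hκ2 : 1 / 2 ≤ κ) (R : ℝ) (hR : 3 * K + 1 ≤ R) :
    ∃ T0 : ℝ, 2 ≤ T0 ∧ ∀ (t : ℝ) (n : ℕ), T0 ≤ t → (n : ℝ) ≤ K * Real.log t →
      0 < ‖H (I * t)‖ ∧
      (‖H (I * t)‖ * (κ * Real.log t) ^ n) * Real.exp (κ * Real.log t * (2 * R - (K + 2) / κ)) ≤
        ‖iteratedDeriv n X (I * t + ((2 * R : ℝ) : ℂ))‖ := by
  obtain ⟨η, hη, hB⟩ := Pool.Agent.W347.SD.sb2
  have hκ := h.κ_pos
  obtain ⟨T0, hT0, hlo⟩ := loX h (2 * R + 3 * K) (by linarith) η hη
  refine ⟨max T0 (Real.exp 1), hT0.trans (le_max_left _ _), ?_⟩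
  intro t n ht hn
  have ht1 : T0 ≤ t := (le_max_left _ _).trans ht
  have ht2 : Real.exp 1 ≤ t := (le_max_right _ _).trans ht
  have htpos : 0 < t := by linarith
  have hlt : 1 ≤ Real.log t := by
    rw [Real.le_log_iff_exp_le htpos]
    exact ht2
  have ht3 : 2 ≤ Real.exp (Real.log t) := by
    rw [Real.exp_log htpos]
    linarith
  obtain ⟨L, hL⟩ : ∃ L : ℝ, L = κ * Real.log t := ⟨_, rfl⟩
  have hL0 : 0 < L := by rw [hL]; positivity
  obtain ⟨p, hp⟩ : ∃ p : ℂ, p = I * t + ((2 * R : ℝ) : ℂ) := ⟨_, rfl⟩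
  have hR2 : ‖((2 * R : ℝ) : ℂ)‖ = 2 * R := by
    rw [Complex.norm_real, Real.norm_of_nonneg (by linarith)]
  obtain ⟨a1, a2, a3, a4⟩ := hlo t ((2 * R : ℝ) : ℂ) ht1 (by rw [hR2]; linarith)
    (by rw [Complex.ofReal_re]; linarith)
  rw [← hp, Complex.ofReal_re, ← hL] at a4
  rw [← hp, ← hL]
  refine ⟨a1, ?_⟩
  have hfac : (0 : ℝ) < (n.factorial : ℝ) := by exact_mod_cast n.factorial_pos
  have hLK : L * ((K + 2) / κ) = (K + 2) * Real.log t := by
    rw [hL]
    field_simp
  rcases Nat.eq_zero_or_pos n with rfl | hn1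
  · simp only [pow_zero, mul_one, iteratedDeriv_zero]
    refine le_trans ?_ a4
    gcongr
    rw [mul_sub, hLK]
    nlinarith
  · have hnr : (1 : ℝ) ≤ n := by exact_mod_cast hn1
    have hn0 : (0 : ℝ) < n := by linarith
    obtain ⟨r, hr⟩ : ∃ r : ℝ, r = n / L := ⟨_, rfl⟩
    have hr0 : 0 < r := by rw [hr]; positivity
    have hrL : L * r = n := by rw [hr]; field_simp
    have hrK : r ≤ 2 * K := by
      rw [hr, div_le_iff₀ hL0]
      calc (n : ℝ) ≤ K * Real.log t := hn
        _ ≤ 2 * K * L := by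
            rw [hL]
            have : K * Real.log t * 1 ≤ K * Real.log t * (2 * κ) := by
              apply mul_le_mul_of_nonneg_left _ (by positivity)
              linarith
            linarith
    have hkey := hB n 0 (fun w => X (p + (r : ℂ) * w)) hn1 (by
      intro w hw
      rw [mem_ball_zero_iff] at hw
      have hw1 : ‖(r : ℂ) * w‖ ≤ 3 * K := by
        rw [norm_mul, Complex.norm_real, Real.norm_eq_abs, abs_of_pos hr0]
        nlinarith [norm_nonneg w]
      have hre : |((r : ℂ) * w).re| ≤ 3 * K := (Complex.abs_re_le_norm _).trans hw1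
      obtain ⟨-, b2, b3, -⟩ := hlo t (((2 * R : ℝ) : ℂ) + (r : ℂ) * w) ht1 (by
        have := norm_add_le ((2 * R : ℝ) : ℂ) ((r : ℂ) * w)
        rw [hR2] at this
        linarith) (by
        rw [Complex.add_re, Complex.ofReal_re]
        have := (abs_le.1 hre).1
        linarith)
      have heq : I * (t : ℂ) + (((2 * R : ℝ) : ℂ) + (r : ℂ) * w) = p + r * w := by rw [hp]; ring
      rw [heq] at b2 b3
      have hlin : HasDerivAt (fun w : ℂ => p + (r : ℂ) * w) r w := by
        simpa using ((hasDerivAt_id w).const_mul (r : ℂ)).const_add p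
      have hd : HasDerivAt (fun w => X (p + (r : ℂ) * w)) (deriv X (p + r * w) * r) w :=
        HasDerivAt.comp w (h.diff _).hasDerivAt hlin
      refine ⟨hd.differentiableAt, b2, ?_⟩
      have hld : logDeriv (fun w => X (p + (r : ℂ) * w)) w = logDeriv X (p + r * w) * r := by
        rw [logDeriv_apply, hd.deriv, logDeriv_apply]
        ring
      have hn2 : (n : ℂ) = ((L : ℝ) : ℂ) * (r : ℂ) := by
        rw [← Complex.ofReal_mul, hrL]
        simp
      rw [← hL] at b3
      rw [hld, hn2, ← sub_mul, norm_mul, Complex.norm_real, Real.norm_eq_abs, abs_of_pos hr0]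
      calc ‖logDeriv X (p + r * w) - (L : ℂ)‖ * r ≤ η * L * r := by gcongr
        _ = η * n := by rw [mul_assoc, hrL])
    rw [iter_comp h.diff] at hkey
    simp only [mul_zero, add_zero] at hkey
    rw [norm_mul, norm_pow, Complex.norm_real, Real.norm_eq_abs, abs_of_pos hr0] at hkey
    have hrn : 0 < r ^ n := by positivity
    refine le_of_mul_le_mul_left ?_ (show (0 : ℝ) < 2 * r ^ n by positivity)
    refine le_trans ?_ (hkey.trans (le_of_eq (by ring)))
    have hLr : L ^ n * r ^ n = (n : ℝ) ^ n := by rw [← mul_pow, hrL]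
    have hnn : (n : ℝ) ^ n ≤ n.factorial * Real.exp n := by
      have := Real.pow_div_factorial_le_exp (n : ℝ) (Nat.cast_nonneg n) n
      rw [div_le_iff₀ hfac] at this
      linarith
    calc 2 * r ^ n * (‖H (I * t)‖ * L ^ n * Real.exp (L * (2 * R - (K + 2) / κ)))
        = ‖H (I * t)‖ * (2 * (L ^ n * r ^ n)) * Real.exp (L * (2 * R - (K + 2) / κ)) := by ring
      _ ≤ ‖H (I * t)‖ * (Real.exp (Real.log t) * (n.factorial * Real.exp (K * Real.log t))) *
            Real.exp (L * (2 * R - (K + 2) / κ)) := by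
          rw [hLr]
          gcongr
          exact hnn.trans (by gcongr)
      _ = n.factorial * (‖H (I * t)‖ * (Real.exp (Real.log t) * Real.exp (K * Real.log t) *
            Real.exp (L * (2 * R - (K + 2) / κ)))) := by ring
      _ = n.factorial * (‖H (I * t)‖ * Real.exp (L * (2 * R) - Real.log t)) := by
          rw [← Real.exp_add, ← Real.exp_add, mul_sub, hLK]
          congr 3
          ring
      _ ≤ n.factorial * ‖X p‖ := by gcongr

/-- Many zeros in windows of a fixed size. -/
theorem window {κ : ℝ} {H X Z : ℂ → ℂ} (h : CF κ H X Z) (hκ2 : 1 / 2 ≤ κ) (happ : AppX X)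
    (K : ℝ) (hK : 1 ≤ K) :
    ∃ R T0 : ℝ, 1 ≤ R ∧ 2 ≤ T0 ∧ ∀ (t : ℝ) (n : ℕ), T0 ≤ t → (n : ℝ) ≤ K * Real.log t →
      ∃ S : Finset ℂ, (∀ s ∈ S, iteratedDeriv n X s = 0 ∧ |s.im - t| ≤ 1600 * R) ∧
        κ * Real.log t * R / 4 ≤ ∑ s ∈ S, (analyticOrderNatAt (iteratedDeriv n X) s : ℝ) := by
  have hκ := h.κ_pos
  obtain ⟨C1, hC1, hU⟩ := upX h
  obtain ⟨C, hC⟩ : ∃ C : ℝ, C = 2 * K + C1 + (K + 2) / κ := ⟨_, rfl⟩
  have hKκ : 0 ≤ (K + 2) / κ := by positivity
  have hC0 : 0 ≤ C := by rw [hC]; positivity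
  obtain ⟨R, hR⟩ : ∃ R : ℝ, R = 8 * C + (3 * K + 1) := ⟨_, rfl⟩
  have hR1 : 3 * K + 1 ≤ R := by rw [hR]; linarith
  have hR0 : 1 ≤ R := by linarith
  obtain ⟨T1, hT1, hlow⟩ := loD h K hK hκ2 R hR1
  obtain ⟨R', hR'⟩ : ∃ R' : ℝ, R' = 2 * R + 2 * (1600 * R) + 2 * K := ⟨_, rfl⟩
  obtain ⟨T2, hT2, hup⟩ := hU R' (by rw [hR']; linarith)
  -- no derivative vanishes identically
  have hne : ∀ n, ∃ p, iteratedDeriv n X p ≠ 0 := by
    intro n
    obtain ⟨t, ht⟩ : ∃ t : ℝ, t = max T1 (Real.exp n) := ⟨_, rfl⟩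
    have h1 : T1 ≤ t := by rw [ht]; exact le_max_left _ _
    have h2 : Real.exp n ≤ t := by rw [ht]; exact le_max_right _ _
    have htpos : 0 < t := by linarith
    have h3 : (n : ℝ) ≤ Real.log t := by
      rw [Real.le_log_iff_exp_le htpos]
      exact h2
    have hn0 : (0 : ℝ) ≤ n := Nat.cast_nonneg n
    obtain ⟨a1, a2⟩ := hlow t n h1 (by nlinarith)
    refine ⟨I * (t : ℂ) + ((2 * R : ℝ) : ℂ), fun h0 => ?_⟩
    rw [h0, norm_zero] at a2
    have hlt : 0 < Real.log t := Real.log_pos (by linarith)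
    have : 0 < ‖H (I * t)‖ * (κ * Real.log t) ^ n *
        Real.exp (κ * Real.log t * (2 * R - (K + 2) / κ)) := by positivity
    linarith
  have hstrip := strip_of_app' h.diff happ hne
  refine ⟨R, max (max T1 T2) (Real.exp 1), hR0,
    (hT1.trans (le_max_left _ _)).trans (le_max_left _ _), ?_⟩
  intro t n ht hn
  have ht1 : T1 ≤ t := ((le_max_left _ _).trans (le_max_left _ _)).trans ht
  have ht2 : T2 ≤ t := ((le_max_right _ _).trans (le_max_left _ _)).trans ht
  have ht3 : Real.exp 1 ≤ t := (le_max_right _ _).trans ht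
  have htpos : 0 < t := by linarith
  have hlt : 1 ≤ Real.log t := by
    rw [Real.le_log_iff_exp_le htpos]
    exact ht3
  obtain ⟨L, hL⟩ : ∃ L : ℝ, L = κ * Real.log t := ⟨_, rfl⟩
  have hL0 : 0 < L := by rw [hL]; positivity
  obtain ⟨a1, a2⟩ := hlow t n ht1 hn
  rw [← hL] at a2
  have hdn : Differentiable ℂ (iteratedDeriv n X) := Pool.Agent.H24R2.JP.ParCircAux.diff_iter h.diff n
  have hsy := Pool.Agent.Y671.LD.CirAux.symm_iter h.diff h.symm n
  have hsn : ∀ x : ℝ, ‖iteratedDeriv n X (I * t - (x : ℂ))‖ = ‖iteratedDeriv n X (I * t + (x : ℂ))‖ := by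
    intro x
    have e1 : I * (t : ℂ) - (x : ℂ) = -((starRingEnd ℂ) (I * t + (x : ℂ))) := by
      rw [map_add, map_mul, Complex.conj_I, Complex.conj_ofReal, Complex.conj_ofReal]
      ring
    rw [e1, hsy, norm_mul, Complex.norm_conj]
    simp
  have hcnt := Pool.Agent.W670.SD.count (f := iteratedDeriv n X) hdn (R := R) (ρ := 1600 * R) (L := L)
    (A := ‖H (I * t)‖ * L ^ n) (C := C) (t := t) hR0 hC0 (by rw [hR]; linarith) le_rfl hL0
    (by positivity)
    (by
      intro z hz
      have hre := abs_le.1 ((Complex.abs_re_le_norm _).trans hz)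
      have him := abs_le.1 ((Complex.abs_im_le_norm _).trans hz)
      have e1 : (z - (I * (t : ℂ) + ((2 * R : ℝ) : ℂ))).re = z.re - 2 * R := by simp
      have e2 : (z - (I * (t : ℂ) + ((2 * R : ℝ) : ℂ))).im = z.im - t := by simp
      rw [e1] at hre
      rw [e2] at him
      rcases Nat.eq_zero_or_pos n with rfl | hn1
      · simp only [pow_zero, mul_one, iteratedDeriv_zero]
        refine (hup t z ht2 ?_ ?_).trans ?_
        · rw [abs_le, hR']
          constructor <;> linarith [hre.1, hre.2]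
        · rw [abs_le, hR']
          constructor <;> linarith [him.1, him.2]
        · rw [← hL]
          gcongr
          rw [hC]
          linarith
      · have hnr : (1 : ℝ) ≤ n := by exact_mod_cast hn1
        have hn0 : (0 : ℝ) < n := by linarith
        obtain ⟨r, hr⟩ : ∃ r : ℝ, r = n / L := ⟨_, rfl⟩
        have hr0 : 0 < r := by rw [hr]; positivity
        have hrL : L * r = n := by rw [hr]; field_simp
        have hrK : r ≤ 2 * K := by
          rw [hr, div_le_iff₀ hL0]
          calc (n : ℝ) ≤ K * Real.log t := hn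
            _ ≤ 2 * K * L := by
                rw [hL]
                have : K * Real.log t * 1 ≤ K * Real.log t * (2 * κ) := by
                  apply mul_le_mul_of_nonneg_left _ (by positivity)
                  linarith
                linarith
        have hc := Complex.norm_iteratedDeriv_le_of_forall_mem_sphere_norm_le n (c := z) (R := r)
          (C := ‖H (I * t)‖ * Real.exp (L * (|z.re| + C))) (f := X) hr0 h.diff.diffContOnCl (by
            intro w hw
            rw [mem_sphere_iff_norm] at hw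
            have w1 := abs_le.1 ((Complex.abs_re_le_norm (w - z)).trans hw.le)
            have w2 := abs_le.1 ((Complex.abs_im_le_norm (w - z)).trans hw.le)
            rw [Complex.sub_re] at w1
            rw [Complex.sub_im] at w2
            refine (hup t w ht2 ?_ ?_).trans ?_
            · rw [abs_le, hR']
              constructor <;> linarith [hre.1, hre.2, w1.1, w1.2]
            · rw [abs_le, hR']
              constructor <;> linarith [him.1, him.2, w2.1, w2.2]
            · rw [← hL]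
              have hww : |w.re| ≤ |z.re| + 2 * K := by
                have z1 := neg_abs_le z.re
                have z2 := le_abs_self z.re
                rw [abs_le]
                constructor <;> linarith [w1.1, w1.2]
              have hww2 : |w.re| + C1 ≤ |z.re| + C := by
                rw [hC]
                linarith
              exact mul_le_mul_of_nonneg_left
                (Real.exp_le_exp.2 (mul_le_mul_of_nonneg_left hww2 hL0.le)) a1.le)
        refine hc.trans ?_
        have hfn : (n.factorial : ℝ) ≤ (n : ℝ) ^ n := by exact_mod_cast Nat.factorial_le_pow n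
        rw [div_le_iff₀ (by positivity)]
        calc (n.factorial : ℝ) * (‖H (I * t)‖ * Real.exp (L * (|z.re| + C)))
            ≤ (n : ℝ) ^ n * (‖H (I * t)‖ * Real.exp (L * (|z.re| + C))) := by gcongr
          _ = ‖H (I * t)‖ * L ^ n * Real.exp (L * (|z.re| + C)) * r ^ n := by
              rw [← hrL, mul_pow]
              ring)
    (by
      refine le_trans ?_ a2
      gcongr
      rw [hC]
      linarith)
    (hsn (2 * R)) (hsn R)
    (fun z hz => hstrip n z hz)
  obtain ⟨S, hS1, hS2⟩ := hcnt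
  rw [hL] at hS2
  exact ⟨S, hS1, hS2⟩

theorem totd : S_TOTD := by
  classical
  intro κ H X Z hκ2 hcg happ K hK
  have h := hcg.cf
  have hκ := h.κ_pos
  obtain ⟨R, T1, hR, hT1, hw⟩ := window h hκ2 happ (2 * K) (by linarith)
  obtain ⟨ρ, hρ⟩ : ∃ ρ : ℝ, ρ = 1600 * R := ⟨_, rfl⟩
  rw [← hρ] at hw
  have hρ0 : 0 < ρ := by rw [hρ]; positivity
  refine ⟨κ / 204800, max (2 * T1) (16 * ρ + 4), by positivity,
    le_trans (by linarith) (le_max_left _ _), ?_⟩
  intro n T hT hn
  have g1 : 2 * T1 ≤ T := (le_max_left _ _).trans hT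
  have g3 : 16 * ρ + 4 ≤ T := (le_max_right _ _).trans hT
  have g2 : 4 ≤ T := by linarith
  have hT0 : 0 < T := by linarith
  obtain ⟨m, hm⟩ : ∃ m : ℕ, m = ⌊T / (8 * ρ)⌋₊ := ⟨_, rfl⟩
  have hm1 : (m : ℝ) ≤ T / (8 * ρ) := by rw [hm]; exact Nat.floor_le (by positivity)
  have hm2 : T / (8 * ρ) < m + 1 := by rw [hm]; exact Nat.lt_floor_add_one _
  rw [le_div_iff₀ (by positivity)] at hm1
  rw [div_lt_iff₀ (by positivity)] at hm2
  obtain ⟨tk, htk⟩ : ∃ tk : ℕ → ℝ, tk = fun k : ℕ => T / 2 + 3 * ρ * ((k : ℝ) + 1) := ⟨_, rfl⟩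
  have htT : ∀ k, T / 2 ≤ tk k := by
    intro k
    rw [htk]
    have : 0 ≤ 3 * ρ * ((k : ℝ) + 1) := by positivity
    simp only
    linarith
  have hlogT : 0 ≤ Real.log T := Real.log_nonneg (by linarith)
  have hlogk : ∀ k, Real.log T ≤ 2 * Real.log (tk k) := by
    intro k
    have h1 : T / 2 ≤ tk k := htT k
    have h2 : Real.log (T / 2) ≤ Real.log (tk k) := Real.log_le_log (by linarith) h1
    have h3 : Real.log T ≤ Real.log ((T / 2) ^ 2) := Real.log_le_log hT0 (by nlinarith)
    rw [Real.log_pow] at h3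
    push_cast at h3
    linarith
  choose S hS1 hS2 using fun k : ℕ => hw (tk k) n (by linarith [htT k]) (by
    refine hn.trans ?_
    have := mul_le_mul_of_nonneg_left (hlogk k) (show (0 : ℝ) ≤ K by linarith)
    linarith)
  refine ⟨(Finset.range m).biUnion S, ?_, ?_⟩
  · intro s hs'
    rw [Finset.mem_biUnion] at hs'
    obtain ⟨k, hk', hsk⟩ := hs'
    obtain ⟨a1, a2⟩ := hS1 k s hsk
    rw [Finset.mem_range] at hk'
    rw [abs_le, htk] at a2
    simp only at a2
    have hk1 : (k : ℝ) + 1 ≤ m := by exact_mod_cast hk'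
    have hk0 : (0 : ℝ) ≤ k := Nat.cast_nonneg k
    refine ⟨a1, ?_, ?_⟩
    · nlinarith [a2.1]
    · have : 3 * ρ * ((k : ℝ) + 1) ≤ 3 * ρ * m := by gcongr
      linarith [a2.2]
  · rw [Finset.sum_biUnion]
    · have hterm : ∀ k ∈ Finset.range m, κ * Real.log T * R / 8 ≤
          ∑ s ∈ S k, (analyticOrderNatAt (iteratedDeriv n X) s : ℝ) := by
        intro k _
        refine le_trans ?_ (hS2 k)
        have h1 := hlogk k
        have h2 : κ * R * Real.log T ≤ κ * R * (2 * Real.log (tk k)) := by gcongr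
        linarith
      calc κ / 204800 * T * Real.log T = (T / (16 * ρ)) * (κ * Real.log T * R / 8) := by
            rw [hρ]
            field_simp
            ring
        _ ≤ m * (κ * Real.log T * R / 8) := by
            have : T / (16 * ρ) ≤ m := by
              rw [div_le_iff₀ (by positivity)]
              linarith
            gcongr
        _ = ∑ k ∈ Finset.range m, κ * Real.log T * R / 8 := by
            rw [Finset.sum_const, Finset.card_range, nsmul_eq_mul]
        _ ≤ _ := Finset.sum_le_sum hterm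
    · intro j _ k _ hjk
      rw [Function.onFun, Finset.disjoint_left]
      intro s hj hk'
      have a1 := abs_le.1 (hS1 j s hj).2
      have a2 := abs_le.1 (hS1 k s hk').2
      rw [htk] at a1 a2
      simp only at a1 a2
      apply hjk
      have b1 : (j : ℝ) - k < 1 := by
        by_contra hc
        push Not at hc
        nlinarith [a1.1, a1.2, a2.1, a2.2]
      have b2 : (k : ℝ) - j < 1 := by
        by_contra hc
        push Not at hc
        nlinarith [a1.1, a1.2, a2.1, a2.2]
      have c1 : (j : ℝ) < k + 1 := by linarith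
      have c2 : (k : ℝ) < j + 1 := by linarith
      have d1 : j < k + 1 := by exact_mod_cast c1
      have d2 : k < j + 1 := by exact_mod_cast c2
      omega

end Pool.Agent.Y423.GL
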